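import Mathlib

set_option autoImplicit false

open Set Filter Topology
open scoped RealInnerProductSpace Gradient

namespace Pool.Agent.Results.MP_28939e_an.UnorderedHeavyBallCycles

section defs

variable {V : Type*} [NormedAddCommGroup V] [InnerProductSpace ℝ V] [CompleteSpace V]

/-- The class of differentiable, `L`-smooth, `μ`-strongly convex functions. -/
def InClass (μ L : ℝ) (f : V → ℝ) : Prop :=
  Differentiable ℝ f ∧ (∀ x y, ‖∇ f x - ∇ f y‖ ≤ L * ‖x - y‖) ∧ StrongConvexOn univ μ f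

/-- `x` (a sequence of period `K`, i.e. a tuple `(x_0, ..., x_{K-1})` continued periodically) is a
cycle of length `K ≥ 3` of the heavy-ball method with step size `γ` and momentum `β`. -/
def IsCycle (μ L γ β : ℝ) (K : ℕ) (x : ℕ → V) : Prop :=
  3 ≤ K ∧ (∀ t, x (t + K) = x t) ∧ (∃ s t, x s ≠ x t) ∧
    ∃ f : V → ℝ, InClass μ L f ∧
      ∀ t, 1 ≤ t → x (t + 1) = x t - γ • ∇ f (x t) + β • (x t - x (t - 1))

end defs

/-- The set `Ω` of tunings with a cycle in some dimension `d ≥ 1`. -/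
def InOmega (μ L γ β : ℝ) : Prop :=
  ∃ d : ℕ, 1 ≤ d ∧ ∃ (K : ℕ) (x : ℕ → EuclideanSpace ℝ (Fin d)), IsCycle μ L γ β K x

/-- The permutation `σ_K`: `0`, then the odd numbers in increasing order, then the even numbers
`≥ 2` in decreasing order. -/
def sigma (K i : ℕ) : ℕ := if i = 0 then 0 else if i ≤ K / 2 then 2 * i - 1 else 2 * (K - i)

example : (List.range 4).map (sigma 4) = [0, 1, 3, 2] := by decide
example : (List.range 5).map (sigma 5) = [0, 1, 3, 4, 2] := by decide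

/-- The tuple `(x_0, ..., x_{K-1})` of reals is `σ_K`-ordered. -/
def SigmaOrdered (K : ℕ) (x : ℕ → ℝ) : Prop :=
  ∀ i < K, ∀ j < K, sigma K i < sigma K j → x i ≤ x j

/-! ### No ordered cycle when `γ μ > 1 + 2 β` -/

lemma grad_mono {μ L : ℝ} {f : ℝ → ℝ} (hf : InClass μ L f) {x y : ℝ} (hxy : x < y) :
    μ * (y - x) ≤ ∇ f y - ∇ f x := by
  have hd := hf.1
  have hc : ConvexOn ℝ univ (fun x => f x - μ / 2 * ‖x‖ ^ 2) := by
    have := hf.2.2
    rwa [strongConvexOn_iff_convex] at this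
  have hder : ∀ z, HasDerivAt (fun x => f x - μ / 2 * ‖x‖ ^ 2) (deriv f z - μ * z) z := by
    intro z
    have h1 : HasDerivAt f (deriv f z) z := (hd z).hasDerivAt
    have h2 : HasDerivAt (fun x : ℝ => μ / 2 * ‖x‖ ^ 2) (μ * z) z := by
      have h3 : HasDerivAt (fun x : ℝ => μ / 2 * x ^ 2) (μ / 2 * (2 * z)) z := by
        simpa using ((hasDerivAt_pow 2 z).const_mul (μ / 2))
      have e : (fun x : ℝ => μ / 2 * ‖x‖ ^ 2) = fun x => μ / 2 * x ^ 2 := by
        funext w; rw [Real.norm_eq_abs, sq_abs]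
      rw [e]
      convert h3 using 1
      ring
    exact h1.sub h2
  have hm := hc.monotoneOn_deriv (fun z _ => (hder z).differentiableAt)
  have h := hm (mem_univ x) (mem_univ y) hxy.le
  rw [(hder x).deriv, (hder y).deriv] at h
  have e : ∀ z, ∇ f z = deriv f z := fun z => gradient_eq_deriv'
  rw [e, e]
  linarith

lemma const_of_start {γ β : ℝ} {f : ℝ → ℝ} {x : ℕ → ℝ}
    (hrec : ∀ t, 1 ≤ t → x (t + 1) = x t - γ • ∇ f (x t) + β • (x t - x (t - 1)))
    (h1 : x 1 = x 0) (h2 : x 2 = x 0) : ∀ t, x t = x 0 := by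
  have hg : γ • ∇ f (x 0) = 0 := by
    have h := hrec 1 le_rfl
    rw [show 1 + 1 = 2 from rfl, show 1 - 1 = 0 from rfl, h2, h1, sub_self, smul_zero,
      add_zero] at h
    linarith
  have : ∀ t, x t = x 0 ∧ x (t + 1) = x 0 := by
    intro t
    induction t with
    | zero => exact ⟨rfl, h1⟩
    | succ n ih =>
      refine ⟨ih.2, ?_⟩
      have h := hrec (n + 1) (by omega)
      rw [show n + 1 - 1 = n from rfl, ih.1, ih.2, hg] at h
      simpa using h
  exact fun t => (this t).1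

lemma no_ordered {μ L γ β : ℝ} (hγ : 0 < γ) (hβ1 : β < 1) (h : 1 + 2 * β < γ * μ)
    {K : ℕ} {x : ℕ → ℝ} (hx : IsCycle μ L γ β K x) : ¬ SigmaOrdered K x := by
  intro hs
  obtain ⟨hK, hper, ⟨s, t, hst⟩, f, hf, hrec⟩ := hx
  have o1 : x 0 ≤ x 1 := hs 0 (by omega) 1 (by omega) (by
    unfold sigma
    have : 1 ≤ K / 2 := by omega
    simp [this])
  have o2 : x 1 ≤ x (K - 1) := hs 1 (by omega) (K - 1) (by omega) (by
    unfold sigma
    have h1 : 1 ≤ K / 2 := by omega
    have h2 : ¬ (K - 1 ≤ K / 2) := by omega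
    have h3 : ¬ (K - 1 = 0) := by omega
    have h4 : K - (K - 1) = 1 := by omega
    simp [h1, h2, h3, h4])
  have o3 : x (K - 1) ≤ x 2 := by
    by_cases h3 : K = 3
    · subst h3; exact le_rfl
    · refine hs (K - 1) (by omega) 2 (by omega) ?_
      unfold sigma
      have h1 : 2 ≤ K / 2 := by omega
      have h2 : ¬ (K - 1 ≤ K / 2) := by omega
      have h5 : ¬ (K - 1 = 0) := by omega
      have h4 : K - (K - 1) = 1 := by omega
      simp [h1, h2, h5, h4]
  have g1 := hrec 1 le_rfl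
  have g0 := hrec K (by omega)
  have e1 : x (K + 1) = x 1 := by rw [add_comm]; exact hper 1
  have e0 : x K = x 0 := by have := hper 0; rwa [zero_add] at this
  rw [e1, e0] at g0
  rw [show 1 + 1 = 2 from rfl, show 1 - 1 = 0 from rfl] at g1
  simp only [smul_eq_mul] at g0 g1
  have key : x 1 = x 0 ∧ x 2 = x 0 := by
    rcases eq_or_lt_of_le o1 with ha | ha
    · rw [← ha] at g1 g0
      have hb : (1 - β) * (x (K - 1) - x 0) + (x 2 - x 0) - (x (K - 1) - x 0) + (x (K - 1) - x 0) * 1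
          = (x (K-1) - x 0) := by
        linarith
      have h5 : x 0 ≤ x (K - 1) := by rw [ha]; exact o2
      have h6 : (x 2 - x 0) = β * (x (K - 1) - x 0) := by linarith
      have h7 : (1 - β) * (x (K - 1) - x 0) ≤ 0 := by nlinarith
      have h8 : x (K - 1) - x 0 = 0 := by nlinarith
      refine ⟨ha.symm, ?_⟩
      rw [h8] at h6
      linarith
    · exfalso
      have hm := grad_mono hf ha
      have h9 : γ * (μ * (x 1 - x 0)) ≤ γ * (∇ f (x 1) - ∇ f (x 0)) :=
        mul_le_mul_of_nonneg_left hm hγ.le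
      have h10 : (1 + 2 * β) * (x 1 - x 0) < γ * μ * (x 1 - x 0) :=
        mul_lt_mul_of_pos_right h (by linarith)
      nlinarith [mul_nonneg (sub_nonneg.2 hβ1.le) (sub_nonneg.2 o2)]
  have hc := const_of_start hrec key.1 key.2
  exact hst (by rw [hc s, hc t])

/-! ### The five-cycle -/

/-- golden ratio -/
noncomputable abbrev φ : ℝ := Real.goldenRatio

lemma phi_sq : φ ^ 2 = φ + 1 := Real.goldenRatio_sq

lemma phi_gt : 1 < φ := Real.one_lt_goldenRatio

noncomputable def cst : ℝ := 2 + φ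

lemma cst_eq : cst = (5 + Real.sqrt 5) / 2 := by
  unfold cst φ Real.goldenRatio; ring

/-- the derivative of the one-dimensional function (for `γ = 1`) -/
noncomputable def gg (β x : ℝ) : ℝ :=
  (1 - β) + β * cst * x + (1 - β) * cst * (min x 0 - min (x + 1) 0 + max (x - 1) 0)

/-- the one-dimensional function (for `γ = 1`) -/
noncomputable def ff (β x : ℝ) : ℝ :=
  (1 - β) * x + β * cst * (x ^ 2 / 2) +
    (1 - β) * cst * ((min x 0) ^ 2 / 2 - (min (x + 1) 0) ^ 2 / 2 + (max (x - 1) 0) ^ 2 / 2)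

lemma hasDerivAt_max_sq (x : ℝ) : HasDerivAt (fun y : ℝ => (max y 0) ^ 2 / 2) (max x 0) x := by
  rcases lt_trichotomy x 0 with h | h | h
  · have e : (fun y : ℝ => (max y 0) ^ 2 / 2) =ᶠ[𝓝 x] fun _ => 0 := by
      filter_upwards [Iio_mem_nhds h] with y hy
      rw [max_eq_right (le_of_lt hy)]; norm_num
    rw [max_eq_right h.le]
    exact (hasDerivAt_const x (0:ℝ)).congr_of_eventuallyEq e
  · subst h
    rw [max_self]
    rw [hasDerivAt_iff_isLittleO_nhds_zero]
    simp only [zero_add, max_self, smul_zero, sub_zero]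
    have h1 : (fun h : ℝ => (max h 0) ^ 2 / 2 - 0 ^ 2 / 2) =O[𝓝 0] fun h : ℝ => h ^ 2 := by
      apply Asymptotics.IsBigO.of_bound 1
      refine Eventually.of_forall fun h => ?_
      rw [Real.norm_eq_abs, Real.norm_eq_abs, one_mul]
      have hp : 0 ≤ (max h 0) ^ 2 / 2 - 0 ^ 2 / 2 := by
        have : 0 ≤ (max h 0) ^ 2 := sq_nonneg _
        linarith
      rw [abs_of_nonneg hp, abs_of_nonneg (sq_nonneg _)]
      rcases le_total h 0 with h0 | h0
      · rw [max_eq_right h0]; nlinarith [sq_nonneg h]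
      · rw [max_eq_left h0]; nlinarith [sq_nonneg h]
    exact h1.trans_isLittleO (Asymptotics.isLittleO_pow_id one_lt_two)
  · have e : (fun y : ℝ => (max y 0) ^ 2 / 2) =ᶠ[𝓝 x] fun y => y ^ 2 / 2 := by
      filter_upwards [Ioi_mem_nhds h] with y hy
      rw [max_eq_left (le_of_lt hy)]
    rw [max_eq_left h.le]
    have h2 : HasDerivAt (fun y : ℝ => y ^ 2 / 2) x x := by
      have := (hasDerivAt_pow 2 x).div_const 2
      simpa using this
    exact h2.congr_of_eventuallyEq e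

lemma hasDerivAt_min_sq (x : ℝ) : HasDerivAt (fun y : ℝ => (min y 0) ^ 2 / 2) (min x 0) x := by
  have h1 := (hasDerivAt_max_sq (-x)).comp x (hasDerivAt_neg x)
  have e : (fun y : ℝ => (min y 0) ^ 2 / 2) = (fun y : ℝ => (max y 0) ^ 2 / 2) ∘ Neg.neg := by
    funext y
    simp only [Function.comp]
    have : max (-y) 0 = -min y 0 := by
      rw [← neg_zero, max_neg_neg, neg_zero]
    rw [this]; ring
  rw [e]
  refine h1.congr_deriv ?_
  have : max (-x) 0 = -min x 0 := by
    rw [← neg_zero, max_neg_neg, neg_zero]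
  rw [this]; ring

lemma hasDerivAt_ff (β x : ℝ) : HasDerivAt (ff β) (gg β x) x := by
  unfold ff gg
  have h1 : HasDerivAt (fun y : ℝ => (1 - β) * y) (1 - β) x := by
    simpa using (hasDerivAt_id x).const_mul (1 - β)
  have h2 : HasDerivAt (fun y : ℝ => β * cst * (y ^ 2 / 2)) (β * cst * x) x := by
    have := ((hasDerivAt_pow 2 x).div_const 2).const_mul (β * cst)
    simpa using this
  have h3 : HasDerivAt (fun y : ℝ => (min (y + 1) 0) ^ 2 / 2) (min (x + 1) 0) x :=
    (hasDerivAt_min_sq (x + 1)).comp_add_const x 1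
  have h4 : HasDerivAt (fun y : ℝ => (max (y - 1) 0) ^ 2 / 2) (max (x - 1) 0) x :=
    (hasDerivAt_max_sq (x - 1)).comp_sub_const x 1
  exact (h1.add h2).add ((((hasDerivAt_min_sq x).sub h3).add h4).const_mul ((1 - β) * cst))

lemma hh_bounds {x y : ℝ} (hxy : x ≤ y) :
    0 ≤ (min y 0 - min (y + 1) 0 + max (y - 1) 0) - (min x 0 - min (x + 1) 0 + max (x - 1) 0) ∧
    (min y 0 - min (y + 1) 0 + max (y - 1) 0) - (min x 0 - min (x + 1) 0 + max (x - 1) 0) ≤ y - x := by
  rcases le_total x 0 with h1 | h1 <;> rcases le_total y 0 with h2 | h2 <;>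
  rcases le_total (x + 1) 0 with h3 | h3 <;> rcases le_total (y + 1) 0 with h4 | h4 <;>
  rcases le_total (x - 1) 0 with h5 | h5 <;> rcases le_total (y - 1) 0 with h6 | h6 <;>
  simp only [min_eq_left, min_eq_right, max_eq_left, max_eq_right, h1, h2, h3, h4, h5, h6] <;>
  constructor <;> linarith

lemma gg_bounds {β x y : ℝ} (hβ0 : 0 ≤ β) (hβ1 : β ≤ 1) (hxy : x ≤ y) :
    β * cst * (y - x) ≤ gg β y - gg β x ∧ gg β y - gg β x ≤ cst * (y - x) := by
  obtain ⟨h1, h2⟩ := hh_bounds hxy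
  have hc : 0 < cst := by unfold cst; linarith [phi_gt]
  have hk : 0 ≤ (1 - β) * cst := mul_nonneg (by linarith) hc.le
  have e : gg β y - gg β x = β * cst * (y - x) + (1 - β) * cst *
      ((min y 0 - min (y + 1) 0 + max (y - 1) 0) - (min x 0 - min (x + 1) 0 + max (x - 1) 0)) := by
    unfold gg; ring
  rw [e]
  have := mul_nonneg hk h1
  have := mul_le_mul_of_nonneg_left h2 hk
  constructor
  · linarith
  · nlinarith

/-- the function on `ℝ^1` -/
noncomputable def FFn (γ β : ℝ) (x : EuclideanSpace ℝ (Fin 1)) : ℝ := γ⁻¹ * ff β (x 0)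

lemma gradFF (γ β : ℝ) (x : EuclideanSpace ℝ (Fin 1)) :
    HasGradientAt (FFn γ β) (WithLp.toLp 2 (fun _ => γ⁻¹ * gg β (x 0))) x := by
  rw [hasGradientAt_iff_hasFDerivAt]
  have h0 : HasFDerivAt (fun z : EuclideanSpace ℝ (Fin 1) => z 0)
      (EuclideanSpace.proj (𝕜 := ℝ) (0 : Fin 1) : EuclideanSpace ℝ (Fin 1) →L[ℝ] ℝ) x :=
    (EuclideanSpace.proj (𝕜 := ℝ) (0 : Fin 1) : EuclideanSpace ℝ (Fin 1) →L[ℝ] ℝ).hasFDerivAt
  have h1 := ((hasDerivAt_ff β (x 0)).const_mul γ⁻¹).comp_hasFDerivAt x h0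
  refine h1.congr_fderiv ?_
  ext v
  simp [PiLp.inner_apply, mul_comm]

lemma norm_one_dim (x : EuclideanSpace ℝ (Fin 1)) : ‖x‖ = |x 0| := by
  rw [EuclideanSpace.norm_eq]
  simp [Real.sqrt_sq_eq_abs]

lemma inClass_FF {μ L γ β : ℝ} (hγ : 0 < γ) (hβ0 : 0 < β) (hβ1 : β < 1)
    (h1 : γ * μ ≤ β * cst) (h2 : cst ≤ γ * L) : InClass μ L (FFn γ β) := by
  have hinv : 0 < γ⁻¹ := inv_pos.2 hγ
  have hμ : μ ≤ γ⁻¹ * (β * cst) := by
    rw [← div_eq_inv_mul, le_div_iff₀ hγ]; linarith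
  have hL : γ⁻¹ * cst ≤ L := by
    rw [← div_eq_inv_mul, div_le_iff₀ hγ]; linarith
  refine ⟨fun x => (gradFF γ β x).differentiableAt, ?_, ?_⟩
  · intro x y
    rw [(gradFF γ β x).gradient, (gradFF γ β y).gradient, norm_one_dim, norm_one_dim]
    have e1 : ((WithLp.toLp 2 (fun _ : Fin 1 => γ⁻¹ * gg β (x 0)) : EuclideanSpace ℝ (Fin 1)) -
        (WithLp.toLp 2 (fun _ : Fin 1 => γ⁻¹ * gg β (y 0)) : EuclideanSpace ℝ (Fin 1))) 0 =
        γ⁻¹ * (gg β (x 0) - gg β (y 0)) := by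
      simp; ring
    have e2 : (x - y) 0 = x 0 - y 0 := by simp
    rw [e1, e2, abs_mul, abs_of_pos hinv]
    have hbd : |gg β (x 0) - gg β (y 0)| ≤ cst * |x 0 - y 0| := by
      rcases le_total (x 0) (y 0) with h | h
      · obtain ⟨a, b⟩ := gg_bounds hβ0.le hβ1.le h
        have hc : 0 < cst := by unfold cst; linarith [phi_gt]
        have h0 : 0 ≤ β * cst * (y 0 - x 0) := by
          apply mul_nonneg (mul_nonneg hβ0.le hc.le); linarith
        rw [abs_of_nonpos (by linarith), abs_of_nonpos (by linarith)]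
        linarith
      · obtain ⟨a, b⟩ := gg_bounds hβ0.le hβ1.le h
        have hc : 0 < cst := by unfold cst; linarith [phi_gt]
        have h0 : 0 ≤ β * cst * (x 0 - y 0) := by
          apply mul_nonneg (mul_nonneg hβ0.le hc.le); linarith
        rw [abs_of_nonneg (by linarith), abs_of_nonneg (by linarith)]
        linarith
    calc γ⁻¹ * |gg β (x 0) - gg β (y 0)| ≤ γ⁻¹ * (cst * |x 0 - y 0|) := by gcongr
      _ = (γ⁻¹ * cst) * |x 0 - y 0| := by ring
      _ ≤ L * |x 0 - y 0| := by gcongr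
  · -- strong convexity in one variable
    have hsc : StrongConvexOn univ μ (fun s : ℝ => γ⁻¹ * ff β s) := by
      rw [strongConvexOn_iff_convex]
      have hder : ∀ z : ℝ, HasDerivAt (fun s : ℝ => γ⁻¹ * ff β s - μ / 2 * ‖s‖ ^ 2)
          (γ⁻¹ * gg β z - μ * z) z := by
        intro z
        have h3 : HasDerivAt (fun s : ℝ => μ / 2 * ‖s‖ ^ 2) (μ * z) z := by
          have h3 : HasDerivAt (fun x : ℝ => μ / 2 * x ^ 2) (μ / 2 * (2 * z)) z := by
            simpa using ((hasDerivAt_pow 2 z).const_mul (μ / 2))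
          have e : (fun x : ℝ => μ / 2 * ‖x‖ ^ 2) = fun x => μ / 2 * x ^ 2 := by
            funext w; rw [Real.norm_eq_abs, sq_abs]
          rw [e]
          convert h3 using 1
          ring
        exact ((hasDerivAt_ff β z).const_mul γ⁻¹).sub h3
      apply Monotone.convexOn_univ_of_deriv (fun z => (hder z).differentiableAt)
      intro x y hxy
      rw [(hder x).deriv, (hder y).deriv]
      obtain ⟨a, _⟩ := gg_bounds hβ0.le hβ1.le hxy
      have h5 : γ⁻¹ * (β * cst * (y - x)) ≤ γ⁻¹ * (gg β y - gg β x) :=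
        mul_le_mul_of_nonneg_left a hinv.le
      have h6 : μ * (y - x) ≤ γ⁻¹ * (β * cst) * (y - x) :=
        mul_le_mul_of_nonneg_right hμ (by linarith)
      nlinarith
    refine ⟨convex_univ, fun x _ y _ a b ha hb hab => ?_⟩
    have h7 := hsc.2 (mem_univ (x 0)) (mem_univ (y 0)) ha hb hab
    have e3 : (a • x + b • y) 0 = a • x 0 + b • y 0 := by simp
    have e4 : ‖x - y‖ = ‖x 0 - y 0‖ := by
      rw [norm_one_dim, Real.norm_eq_abs]; simp
    show FFn γ β (a • x + b • y) ≤ a • FFn γ β x + b • FFn γ β y - a * b * (μ / 2 * ‖x - y‖ ^ 2)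
    unfold FFn
    rw [e3, e4]
    exact h7

/-- the points of the cycle -/
noncomputable def pts (t : ℕ) : ℝ :=
  if t % 5 = 0 then φ else if t % 5 = 1 then -φ else if t % 5 = 2 then 1
  else if t % 5 = 3 then 0 else -1

lemma gg_vals (β : ℝ) : gg β φ = 2 * φ + β * φ ^ 2 ∧ gg β (-φ) = -φ ^ 2 - 2 * β * φ ∧
    gg β 1 = 1 + β * φ ^ 2 ∧ gg β 0 = 1 - β ∧ gg β (-1) = -φ ^ 2 - β := by
  have h1 := phi_gt
  have h2 := phi_sq
  refine ⟨?_, ?_, ?_, ?_, ?_⟩
  · unfold gg cst
    rw [min_eq_right (by linarith), min_eq_right (by linarith), max_eq_left (by linarith)]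
    linear_combination (1 - β) * h2
  · unfold gg cst
    rw [min_eq_left (by linarith), min_eq_left (by linarith), max_eq_right (by linarith)]
    linear_combination (1 - β) * h2
  · unfold gg cst
    rw [min_eq_right (by linarith), min_eq_right (by linarith), max_eq_left (by linarith)]
    linear_combination (-β) * h2
  · unfold gg cst
    rw [min_eq_right (by linarith), min_eq_right (by linarith), max_eq_right (by linarith)]
    ring
  · unfold gg cst
    rw [min_eq_left (by linarith), min_eq_right (by linarith), max_eq_right (by linarith)]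
    linear_combination h2

lemma pts_rec (β : ℝ) (t : ℕ) (ht : 1 ≤ t) :
    pts (t + 1) = pts t - gg β (pts t) + β * (pts t - pts (t - 1)) := by
  obtain ⟨g0, g1, g2, g3, g4⟩ := gg_vals β
  have h2 := phi_sq
  have hcases : t % 5 = 0 ∨ t % 5 = 1 ∨ t % 5 = 2 ∨ t % 5 = 3 ∨ t % 5 = 4 := by omega
  rcases hcases with h | h | h | h | h
  · have a : (t + 1) % 5 = 1 := by omega
    have b : (t - 1) % 5 = 4 := by omega
    simp only [pts, h, a, b]
    norm_num
    rw [g0]; linear_combination β * h2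
  · have a : (t + 1) % 5 = 2 := by omega
    have b : (t - 1) % 5 = 0 := by omega
    simp only [pts, h, a, b]
    norm_num
    rw [g1]; linear_combination -h2
  · have a : (t + 1) % 5 = 3 := by omega
    have b : (t - 1) % 5 = 1 := by omega
    simp only [pts, h, a, b]
    norm_num
    rw [g2]; linear_combination β * h2
  · have a : (t + 1) % 5 = 4 := by omega
    have b : (t - 1) % 5 = 2 := by omega
    simp only [pts, h, a, b]
    norm_num
    rw [g3]; ring
  · have a : (t + 1) % 5 = 0 := by omega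
    have b : (t - 1) % 5 = 3 := by omega
    simp only [pts, h, a, b]
    norm_num
    rw [g4]; linear_combination -h2

lemma inOmega {μ L γ β : ℝ} (hγ : 0 < γ) (hβ0 : 0 < β) (hβ1 : β < 1)
    (h1 : γ * μ ≤ β * cst) (h2 : cst ≤ γ * L) : InOmega μ L γ β := by
  refine ⟨1, le_rfl, 5, fun t => WithLp.toLp 2 (fun _ => pts t), by norm_num, ?_, ?_,
    FFn γ β, inClass_FF hγ hβ0 hβ1 h1 h2, ?_⟩
  · intro t
    have : pts (t + 5) = pts t := by unfold pts; simp
    show (WithLp.toLp 2 (fun _ => pts (t + 5)) : EuclideanSpace ℝ (Fin 1)) = _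
    rw [this]
  · refine ⟨2, 3, fun h => ?_⟩
    have := congrArg (fun z : EuclideanSpace ℝ (Fin 1) => z 0) h
    simp [pts] at this
  · intro t ht
    rw [(gradFF γ β _).gradient]
    ext i
    have := pts_rec β t ht
    simp only [PiLp.add_apply, PiLp.sub_apply, PiLp.smul_apply, smul_eq_mul]
    rw [this]
    field_simp

/-- Whenever `0 < γ`, `0 < β < 1` and `1 + 2β < γμ ≤ β (5+√5)/2`, `(5+√5)/2 ≤ γL`, the tuning
`(γ, β)` lies in `Ω` but no one-dimensional cycle, of any length `K ≥ 3`, is `σ_K`-ordered.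
Such parameters exist, also with `γL < 2(1+β)`, where the method converges on all quadratics. -/
theorem result :
    (∀ μ L γ β : ℝ, 0 < γ → 0 < β → β < 1 → 1 + 2 * β < γ * μ →
      γ * μ ≤ β * ((5 + Real.sqrt 5) / 2) → (5 + Real.sqrt 5) / 2 ≤ γ * L →
      InOmega μ L γ β ∧ ¬ ∃ (K : ℕ) (x : ℕ → ℝ), IsCycle μ L γ β K x ∧ SigmaOrdered K x) ∧
    (∃ μ L γ β : ℝ, 0 < μ ∧ μ ≤ L ∧ 0 < γ ∧ 0 < β ∧ β < 1 ∧ 1 + 2 * β < γ * μ ∧
      γ * μ ≤ β * ((5 + Real.sqrt 5) / 2) ∧ (5 + Real.sqrt 5) / 2 ≤ γ * L ∧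
      γ * L < 2 * (1 + β)) := by
  constructor
  · intro μ L γ β hγ hβ0 hβ1 h h1 h2
    rw [← cst_eq] at h1 h2
    exact ⟨inOmega hγ hβ0 hβ1 h1 h2, fun ⟨K, x, hx, hs⟩ => no_ordered hγ hβ1 h hx hs⟩
  · have h5 : (2.2:ℝ) < Real.sqrt 5 := by
      apply Real.lt_sqrt_of_sq_lt; norm_num
    have h6 : Real.sqrt 5 < 2.24 := by
      rw [Real.sqrt_lt' (by norm_num)]; norm_num
    refine ⟨3, 3.7, 1, 9/10, ?_, ?_, ?_, ?_, ?_, ?_, ?_, ?_, ?_⟩ <;> norm_num <;> linarith

end Pool.Agent.Results.MP_28939e_an.UnorderedHeavyBallCycles
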